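import Mathlib
import Pool.Agent.Q107.FW.Two

set_option autoImplicit false

namespace Pool.Agent.Results.MP_a04191_co.DenseMiddle

open Pool.Agent.Q107.FW

/-- The middle face number bound `f_r = o(n ^ (r + 1))` for flag weak `(2r-1)`-pseudomanifolds holds
for `r = 2` and fails for every `r ≥ 4`. -/
theorem result : SmallMiddle 2 ∧ ∀ r : ℕ, 4 ≤ r → ¬ SmallMiddle r :=
  ⟨small_two, not_small⟩

end Pool.Agent.Results.MP_a04191_co.DenseMiddle
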